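import Pool.Agent.Work.MP_b5407d_lbm_helper35.PathBasics

/-! Block PC (helper35): the calculus of the path. -/

set_option autoImplicit false

open MeasureTheory Set Filter Topology

namespace Pool.LBM.PC

open Pool.LBM.Path

variable (v w : ℝ) (a b : ℕ → ℝ) (m : ℕ)

theorem G_zero (ha : a 0 = 0) : pG v w a b 0 = 0 := by
  unfold pG; rw [pl_zero, ha]; simp

theorem G_m (ha : a m = 0) : pG v w a b m = 0 := by
  unfold pG; rw [pl_nat, ha]; simp

/-- `Φ(x) = ∫_0^x mE v` -/
noncomputable def Ph (x : ℝ) : ℝ := ∫ s in (0 : ℝ)..x, mE v s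

theorem Ph_deriv (x : ℝ) : HasDerivAt (Ph v) (mE v x) x :=
  intervalIntegral.integral_hasDerivAt_right ((mE_cont v).intervalIntegrable 0 x)
    ((mE_cont v).stronglyMeasurable.stronglyMeasurableAtFilter) (mE_cont v).continuousAt

theorem Ph_cont : Continuous (Ph v) :=
  continuous_iff_continuousAt.mpr fun x => (Ph_deriv v x).continuousAt

theorem Ph_zero : Ph v 0 = 0 := by simp [Ph]

theorem part1 (C : ℝ) (ha0 : a 0 = 0) (ham : a m = 0) :
    (∫ t in (0 : ℝ)..m, pu v w a b C t * dpl a t) = w * (pP v w a b m - C * pd v w a b m) := by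
  have hGc := pG_cont v w a b
  have hXc := pX_cont v w a b
  have huc := pu_cont v w a b C
  have hpl := cont_pl a
  have hPh := (Ph_cont v).comp hpl
  -- F = (C - X) G + Φ(x)
  have hF : Continuous (fun t => (C - pX v w a b t) * pG v w a b t + Ph v (pl a t)) := by
    have : Continuous fun t => Ph v (pl a t) := hPh
    fun_prop
  have hg : Continuous (fun t => w * ((C - pX v w a b t) * pG v w a b t)) := by fun_prop
  have hd : ∀ t, t ∉ Nt → HasDerivAt (fun t => (C - pX v w a b t) * pG v w a b t + Ph v (pl a t))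
      (pu v w a b C t * dpl a t + (w * ((C - pX v w a b t) * pG v w a b t)) * dpl b t) t := by
    intro t ht
    have h1 := (pX_deriv v w a b ht).const_sub C
    have h2 := pG_deriv v w a b ht
    have h3 := (Ph_deriv v (pl a t)).comp t (deriv_pl a ht)
    refine ((h1.mul h2).add h3).congr_deriv ?_
    unfold pu pG
    have := pe_ne v w a b t
    field_simp
    ring
  have h := ftc2 a b hF huc hg hd 0 m
  rw [G_m v w a b m ham, G_zero v w a b ha0, pl_nat, pl_zero, ha0, ham] at h
  have e1 : (∫ x in (0:ℝ)..m, (w * ((C - pX v w a b x) * pG v w a b x)) * dpl b x) =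
      w * (C * pd v w a b m - pP v w a b m) := by
    have hd1 : pd v w a b m = ∫ x in (0:ℝ)..m, pG v w a b x * dpl b x := rfl
    have hd2 : pP v w a b m = ∫ x in (0:ℝ)..m, (pX v w a b x * pG v w a b x) * dpl b x := by
      unfold pP pG
      refine intervalIntegral.integral_congr fun x _ => ?_
      show _ = _
      ring
    rw [hd1, hd2, ← intervalIntegral.integral_const_mul, ← intervalIntegral.integral_sub,
      ← intervalIntegral.integral_const_mul]
    · refine intervalIntegral.integral_congr fun x _ => ?_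
      show _ = _
      ring
    · exact (mul_ii b hGc 0 m).const_mul C
    · exact mul_ii b (hXc.mul hGc) 0 m
  rw [e1] at h
  simp only [mul_zero, zero_add, Ph_zero, sub_self] at h
  linarith

theorem part2 (C κ η : ℝ) (ham : a m = 0) (hV : pVx v w a b C κ m = -κ) (t : ℝ) :
    pu v w a b C t + pl a t - v * pVx v w a b C κ t - w * pVy v w a b m C η t =
      pc v w a b m C κ η := by
  have huc := pu_cont v w a b C
  have hF : Continuous (fun t => pu v w a b C t + pl a t - v * pVx v w a b C κ t -
      w * pVy v w a b m C η t) := by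
    have h1 := cont_pl a
    have h2 := pVx_cont v w a b C κ
    have h3 := pVy_cont v w a b m C η
    fun_prop
  have hd : ∀ t, t ∉ Nt → HasDerivAt (fun t => pu v w a b C t + pl a t - v * pVx v w a b C κ t -
      w * pVy v w a b m C η t) ((fun _ => (0:ℝ)) t) t := by
    intro t ht
    have h1 := pu_deriv v w a b C ht
    have h2 := deriv_pl a ht
    have h3 := (pVx_deriv v w a b C κ ht).const_mul v
    have h4 := (pVy_deriv v w a b m C η ht).const_mul w
    refine (((h1.add h2).sub h3).sub h4).congr_deriv ?_
    ring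
  have h := ftc hF hd (s := t) (t := m) (intervalIntegrable_const)
  simp only [intervalIntegral.integral_const, smul_zero] at h
  have h0 : pVy v w a b m C η m = η := by simp [pVy]
  rw [pl_nat, ham, hV, h0] at h
  unfold pc
  linarith

theorem X_m (ha0 : a 0 = 0) (ham : a m = 0) : pX v w a b m = w * pJ v w a b m := by
  have hec := pe_cont v w a b
  have hqc := pq_cont v w a b
  have hF : Continuous (fun t => mE v (pl a t)) := (mE_cont v).comp (cont_pl a)
  have hf : Continuous (fun t => pe v w a b t + w * pq v w a b t) := by fun_prop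
  have hd : ∀ t, t ∉ Nt → HasDerivAt (fun t => mE v (pl a t))
      ((pe v w a b t + w * pq v w a b t) * dpl a t + (0:ℝ) * dpl b t) t := by
    intro t ht
    refine (mEx_deriv v a ht).congr_deriv ?_
    rw [pe_add]; ring
  have h := ftc2 a b hF hf (g := fun _ => (0:ℝ)) continuous_const hd 0 m
  rw [pl_nat, pl_zero, ha0, ham] at h
  simp only [zero_mul, intervalIntegral.integral_zero, sub_self, add_zero] at h
  have e1 : (∫ x in (0:ℝ)..m, (pe v w a b x + w * pq v w a b x) * dpl a x) =
      pX v w a b m + w * pL v w a b m := by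
    unfold pX pL
    rw [← intervalIntegral.integral_const_mul, ← intervalIntegral.integral_add]
    · refine intervalIntegral.integral_congr fun x _ => ?_
      show _ = _
      ring
    · exact mul_ii a hec 0 m
    · exact (mul_ii a hqc 0 m).const_mul w
  rw [e1] at h
  unfold pJ
  linarith

/-- `(mE (-w) y)' = e^{w y} y'` -/
theorem mEy_deriv {t : ℝ} (ht : t ∉ Nt) :
    HasDerivAt (fun t => mE (-w) (pl b t)) (Real.exp (w * pl b t) * dpl b t) t := by
  refine ((mE_deriv (-w) (pl b t)).comp t (deriv_pl b ht)).congr_deriv ?_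
  congr 2; ring

theorem inv_pe (t : ℝ) : (pe v w a b t)⁻¹ = Real.exp (w * pl b t) + v * pG v w a b t := by
  have h1 := mul_mE v (pl a t)
  have h2 : v * pG v w a b t = (1 - Real.exp (-(v * pl a t))) / pe v w a b t := by
    unfold pG; rw [← h1]; ring
  rw [h2, sub_div]
  have h3 : Real.exp (-(v * pl a t)) / pe v w a b t = Real.exp (w * pl b t) := by
    rw [div_eq_iff (pe_ne v w a b t), pe_eq]
    have : Real.exp (w * pl b t) * Real.exp (-(w * pl b t)) = 1 := by
      rw [← Real.exp_add]; simp
    calc Real.exp (-(v * pl a t)) = Real.exp (-(v * pl a t)) *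
          (Real.exp (w * pl b t) * Real.exp (-(w * pl b t))) := by rw [this, mul_one]
      _ = _ := by ring
  rw [h3, one_div]; ring

theorem pe_mE (t : ℝ) : pe v w a b t * mE (-w) (pl b t) = pq v w a b t := by
  rw [pe_eq, mul_assoc, exp_mE_neg]
  rfl

/-- `∫ u y'` -/
theorem int_uy (C : ℝ) (ha0 : a 0 = 0) (ham : a m = 0) :
    (∫ t in (0 : ℝ)..m, pu v w a b C t * dpl b t) =
      C * (mE (-w) (b m) - mE (-w) (b 0)) + v * (C * pd v w a b m - pP v w a b m)
        - pJ v w a b m * Real.exp (w * b m) := by
  have hec := pe_cont v w a b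
  have hqc := pq_cont v w a b
  have hGc := pG_cont v w a b
  have hXc := pX_cont v w a b
  have huc := pu_cont v w a b C
  have hMc : Continuous (fun t => mE (-w) (pl b t)) := (mE_cont (-w)).comp (cont_pl b)
  -- F = (C - X) mE(-w) y
  have hF : Continuous (fun t => (C - pX v w a b t) * mE (-w) (pl b t)) := by fun_prop
  have hf : Continuous (fun t => -pq v w a b t) := by fun_prop
  have hg : Continuous (fun t => pu v w a b C t - v * ((C - pX v w a b t) * pG v w a b t)) := by
    fun_prop
  have hd : ∀ t, t ∉ Nt → HasDerivAt (fun t => (C - pX v w a b t) * mE (-w) (pl b t))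
      ((-pq v w a b t) * dpl a t +
        (pu v w a b C t - v * ((C - pX v w a b t) * pG v w a b t)) * dpl b t) t := by
    intro t ht
    have h1 := (pX_deriv v w a b ht).const_sub C
    have h2 := mEy_deriv w b ht
    refine (h1.mul h2).congr_deriv ?_
    have h3 : pu v w a b C t = (C - pX v w a b t) * (pe v w a b t)⁻¹ := by
      unfold pu; rw [div_eq_mul_inv]
    rw [h3, inv_pe, ← pe_mE v w a b t]
    ring
  have h := ftc2 a b hF hf hg hd 0 m
  have e1 : (∫ x in (0:ℝ)..m, (-pq v w a b x) * dpl a x) = pJ v w a b m := by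
    unfold pJ pL
    rw [← intervalIntegral.integral_neg]
    refine intervalIntegral.integral_congr fun x _ => ?_
    show _ = _
    ring
  have e2 : (∫ x in (0:ℝ)..m, (pu v w a b C x - v * ((C - pX v w a b x) * pG v w a b x)) *
      dpl b x) = (∫ t in (0 : ℝ)..m, pu v w a b C t * dpl b t) -
        v * (C * pd v w a b m - pP v w a b m) := by
    have hd1 : pd v w a b m = ∫ x in (0:ℝ)..m, pG v w a b x * dpl b x := rfl
    have hd2 : pP v w a b m = ∫ x in (0:ℝ)..m, (pX v w a b x * pG v w a b x) * dpl b x := by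
      unfold pP pG
      refine intervalIntegral.integral_congr fun x _ => ?_
      show _ = _
      ring
    rw [hd1, hd2, ← intervalIntegral.integral_const_mul C, ← intervalIntegral.integral_sub,
      ← intervalIntegral.integral_const_mul v, ← intervalIntegral.integral_sub]
    · refine intervalIntegral.integral_congr fun x _ => ?_
      show _ = _
      ring
    · exact mul_ii b huc 0 m
    · exact (((mul_ii b hGc 0 m).const_mul C).sub (mul_ii b (hXc.mul hGc) 0 m)).const_mul v
    · exact (mul_ii b hGc 0 m).const_mul C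
    · exact mul_ii b (hXc.mul hGc) 0 m
  have e3 : pX v w a b 0 = 0 := by simp [pX]
  have e4 := X_m v w a b m ha0 ham
  have e5 := mul_mE (-w) (b m)
  have e6 : Real.exp (-(-w * b m)) = Real.exp (w * b m) := by congr 1; ring
  rw [e6] at e5
  rw [e1, e2, pl_nat, pl_zero, e3, e4] at h
  have e7 : w * pJ v w a b m * mE (-w) (b m) =
      pJ v w a b m * Real.exp (w * b m) - pJ v w a b m := by
    have : w * mE (-w) (b m) = Real.exp (w * b m) - 1 := by linarith
    calc w * pJ v w a b m * mE (-w) (b m) = pJ v w a b m * (w * mE (-w) (b m)) := by ring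
      _ = _ := by rw [this]; ring
  have e8 : (C - w * pJ v w a b m) * mE (-w) (b m) =
      C * mE (-w) (b m) - (pJ v w a b m * Real.exp (w * b m) - pJ v w a b m) := by
    rw [← e7]; ring
  rw [e8] at h
  linarith

theorem part3 (C : ℝ) (ha0 : a 0 = 0) (ham : a m = 0) :
    (∫ s in (b 0)..(b m), Real.exp (-(w * s))) * (C / pe v w a b 0) -
    pe v w a b m * (∫ t in (0 : ℝ)..m, pu v w a b C t * dpl b t) =
      pJ v w a b m - v * pe v w a b m * (C * pd v w a b m - pP v w a b m) := by
  rw [int_uy v w a b m C ha0 ham]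
  have h0 : pe v w a b 0 = Real.exp (-(w * b 0)) := by
    rw [pe_eq, pl_zero, pl_zero, ha0]; simp
  have hm : pe v w a b m = Real.exp (-(w * b m)) := by
    rw [pe_eq, pl_nat, pl_nat, ham]; simp
  have hI : (∫ s in (b 0)..(b m), Real.exp (-(w * s))) = mE w (b m) - mE w (b 0) := by
    unfold mE
    rw [intervalIntegral.integral_interval_sub_left]
    · exact (by fun_prop : Continuous fun s : ℝ => Real.exp (-(w * s))).intervalIntegrable _ _
    · exact (by fun_prop : Continuous fun s : ℝ => Real.exp (-(w * s))).intervalIntegrable _ _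
  have hm1 := mul_mE w (b m)
  rw [h0, hm, hI]
  -- `(mE w bm - mE w b0) e^{w b0} = e^{-w bm} (mE (-w) bm - mE (-w) b0)`
  have key : (mE w (b m) - mE w (b 0)) * Real.exp (w * b 0) =
      Real.exp (-(w * b m)) * (mE (-w) (b m) - mE (-w) (b 0)) := by
    have k1 := exp_mE_neg w (b m)
    have k2 := exp_mE_neg w (b 0)
    have k3 := exp_mE_neg (-w) (b 0)
    rw [neg_neg] at k3
    have k4 : Real.exp (-(-w * b 0)) = Real.exp (w * b 0) := by congr 1; ring
    rw [k4] at k3
    -- `mE w bm = e^{-w bm} mE(-w) bm`, `mE(-w) b0 = e^{w b0} mE w b0`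
    have k5 := mul_mE w (b m)
    have k6 := mul_mE w (b 0)
    have k7 := mul_mE (-w) (b 0)
    rw [k4] at k7
    rw [mul_sub, k1, ← k3]
    -- goal: (A - B) E0 = A - Em (E0 B)
    by_cases hw : w = 0
    · subst hw
      simp
    · have hA : mE w (b m) = (1 - Real.exp (-(w * b m))) / w := by
        rw [← k5]; field_simp
      have hB : mE w (b 0) = (1 - Real.exp (-(w * b 0))) / w := by
        rw [← k6]; field_simp
      rw [hA, hB]
      have hE : Real.exp (w * b 0) * Real.exp (-(w * b 0)) = 1 := by
        rw [← Real.exp_add]; simp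
      set E0 := Real.exp (w * b 0)
      set F0 := Real.exp (-(w * b 0))
      set Em := Real.exp (-(w * b m))
      field_simp
      linear_combination (1 - Em) * hE
  have hinv : C / Real.exp (-(w * b 0)) = C * Real.exp (w * b 0) := by
    rw [Real.exp_neg, div_inv_eq_mul]
  rw [hinv]
  have hE : Real.exp (-(w * b m)) * Real.exp (w * b m) = 1 := by
    rw [← Real.exp_add]; simp
  have e1 : (mE w (b m) - mE w (b 0)) * (C * Real.exp (w * b 0)) =
      C * (Real.exp (-(w * b m)) * (mE (-w) (b m) - mE (-w) (b 0))) := by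
    rw [← key]; ring
  rw [e1]
  linear_combination (pJ v w a b m) * hE

end Pool.LBM.PC

theorem Pool.LBM.blk_PC : Pool.LBM.Stmt_PC := by
  intro m a b v w C κ η ha0 ham
  refine ⟨Pool.LBM.PC.part1 v w a b m C ha0 ham, ?_, Pool.LBM.PC.part3 v w a b m C ha0 ham⟩
  intro hV t _
  exact Pool.LBM.PC.part2 v w a b m C κ η ham hV t
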