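import Pool.Agent.Work.MP_b5407d_lbm.Interface

/-! Calculus along piecewise linear paths (helper35), for the blocks PC, PV, PX, PY. -/

set_option autoImplicit false

open MeasureTheory Set Filter Topology

namespace Pool.LBM.Path

/-- the exceptional set -/
def Nt : Set ℝ := Set.range (Nat.cast : ℕ → ℝ)

theorem Nt_countable : Nt.Countable := Set.countable_range _

theorem pl_aff (a : ℕ → ℝ) (k : ℕ) {t : ℝ} (h1 : (k : ℝ) ≤ t) (h2 : t ≤ k + 1) :
    pl a t = a k + (t - k) * (a (k + 1) - a k) := by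
  rcases h2.lt_or_eq with h | h
  · have hf : ⌊t⌋₊ = k := (Nat.floor_eq_iff (le_trans (Nat.cast_nonneg k) h1)).mpr ⟨h1, h⟩
    unfold pl; rw [hf]
  · have hf : ⌊t⌋₊ = k + 1 := by
      rw [h]; exact_mod_cast Nat.floor_natCast (R := ℝ) (k + 1)
    unfold pl; rw [hf, h]; push_cast; ring

theorem pl_aff0 (a : ℕ → ℝ) {t : ℝ} (h2 : t ≤ 1) :
    pl a t = a 0 + t * (a 1 - a 0) := by
  rcases le_or_gt 0 t with h | h
  · have := pl_aff a 0 (t := t) (by simpa using h) (by simpa using h2)
    simpa using this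
  · have hf : ⌊t⌋₊ = 0 := Nat.floor_of_nonpos h.le
    unfold pl; rw [hf]; simp

@[simp] theorem pl_nat (a : ℕ → ℝ) (k : ℕ) : pl a (k : ℝ) = a k := by
  rw [pl_aff a k le_rfl (by linarith)]; ring

@[simp] theorem pl_zero (a : ℕ → ℝ) : pl a 0 = a 0 := by
  have := pl_nat a 0; simpa using this

theorem cont_pl (a : ℕ → ℝ) : Continuous (pl a) := by
  rw [continuous_iff_continuousAt]
  intro t
  rw [continuousAt_iff_continuous_left_right]
  constructor
  · -- left
    rcases le_or_gt t 0 with h | h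
    · have : ContinuousWithinAt (fun s : ℝ => a 0 + s * (a 1 - a 0)) (Iic t) t := by fun_prop
      refine this.congr (fun s hs => ?_) ?_
      · exact pl_aff0 a (by rw [mem_Iic] at hs; linarith)
      · exact pl_aff0 a (by linarith)
    · obtain ⟨k, hk1, hk2⟩ : ∃ k : ℕ, (k : ℝ) < t ∧ t ≤ k + 1 := by
        refine ⟨⌈t⌉₊ - 1, ?_, ?_⟩
        · have h1 : 0 < ⌈t⌉₊ := Nat.ceil_pos.mpr h
          have h2 : ⌈t⌉₊ - 1 < ⌈t⌉₊ := by omega
          exact Nat.lt_ceil.mp h2
        · have h1 : 0 < ⌈t⌉₊ := Nat.ceil_pos.mpr h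
          have h2 : ((⌈t⌉₊ - 1 : ℕ) : ℝ) + 1 = (⌈t⌉₊ : ℝ) := by
            have : ⌈t⌉₊ - 1 + 1 = ⌈t⌉₊ := by omega
            exact_mod_cast this
          rw [h2]; exact Nat.le_ceil t
      have : ContinuousWithinAt (fun s : ℝ => a k + (s - k) * (a (k + 1) - a k)) (Iic t) t := by
        fun_prop
      refine this.congr_of_eventuallyEq ?_ (pl_aff a k hk1.le hk2)
      have hev : ∀ᶠ s in 𝓝[Iic t] t, (k : ℝ) < s :=
        nhdsWithin_le_nhds (Ioi_mem_nhds hk1)
      filter_upwards [hev, self_mem_nhdsWithin] with s hs1 hs2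
      exact pl_aff a k hs1.le (le_trans hs2 hk2)
  · -- right
    rcases lt_or_ge t 0 with h | h
    · have : ContinuousWithinAt (fun s : ℝ => a 0 + s * (a 1 - a 0)) (Ici t) t := by fun_prop
      refine this.congr_of_eventuallyEq ?_ (pl_aff0 a (by linarith))
      have hev : ∀ᶠ s in 𝓝[Ici t] t, s < 0 := nhdsWithin_le_nhds (Iio_mem_nhds h)
      filter_upwards [hev] with s hs
      exact pl_aff0 a (by linarith)
    · set k := ⌊t⌋₊ with hk
      have hk1 : (k : ℝ) ≤ t := Nat.floor_le h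
      have hk2 : t < k + 1 := Nat.lt_floor_add_one t
      have : ContinuousWithinAt (fun s : ℝ => a k + (s - k) * (a (k + 1) - a k)) (Ici t) t := by
        fun_prop
      refine this.congr_of_eventuallyEq ?_ (pl_aff a k hk1 hk2.le)
      have hev : ∀ᶠ s in 𝓝[Ici t] t, s < (k : ℝ) + 1 :=
        nhdsWithin_le_nhds (Iio_mem_nhds hk2)
      filter_upwards [hev, self_mem_nhdsWithin] with s hs1 hs2
      exact pl_aff a k (le_trans hk1 hs2) hs1.le

/-- near a non-integer the floor is constant -/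
theorem floor_ev {t : ℝ} (ht : t ∉ Nt) : ∀ᶠ s in 𝓝 t, ⌊s⌋₊ = ⌊t⌋₊ := by
  rcases lt_or_ge t 0 with h | h
  · filter_upwards [Iio_mem_nhds h] with s hs
    rw [Nat.floor_of_nonpos (le_of_lt hs), Nat.floor_of_nonpos h.le]
  · have hk1 : (⌊t⌋₊ : ℝ) ≤ t := Nat.floor_le h
    have hk1' : (⌊t⌋₊ : ℝ) < t := lt_of_le_of_ne hk1 (fun h' => ht ⟨⌊t⌋₊, h'⟩)
    have hk2 : t < ⌊t⌋₊ + 1 := Nat.lt_floor_add_one t
    filter_upwards [Ioo_mem_nhds hk1' hk2] with s hs
    exact (Nat.floor_eq_iff (le_trans (Nat.cast_nonneg _) hs.1.le)).mpr ⟨hs.1.le, hs.2⟩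

theorem deriv_pl (a : ℕ → ℝ) {t : ℝ} (ht : t ∉ Nt) : HasDerivAt (pl a) (dpl a t) t := by
  have h1 : HasDerivAt (fun s : ℝ => a ⌊t⌋₊ + (s - ⌊t⌋₊) * (a (⌊t⌋₊ + 1) - a ⌊t⌋₊)) (dpl a t) t := by
    have : HasDerivAt (fun s : ℝ => (s - ⌊t⌋₊) * (a (⌊t⌋₊ + 1) - a ⌊t⌋₊))
        (1 * (a (⌊t⌋₊ + 1) - a ⌊t⌋₊)) t :=
      ((hasDerivAt_id t).sub_const _).mul_const _
    have := this.const_add (a ⌊t⌋₊)
    simpa [dpl] using this
  refine h1.congr_of_eventuallyEq ?_
  filter_upwards [floor_ev ht] with s hs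
  unfold pl; rw [hs]

theorem dpl_contAt (a : ℕ → ℝ) {t : ℝ} (ht : t ∉ Nt) : ContinuousAt (dpl a) t := by
  have h1 : ContinuousAt (fun _ : ℝ => a (⌊t⌋₊ + 1) - a ⌊t⌋₊) t := continuousAt_const
  refine h1.congr ?_
  filter_upwards [floor_ev ht] with s hs
  unfold dpl; rw [hs]

theorem dpl_meas (a : ℕ → ℝ) : Measurable (dpl a) := by
  have : dpl a = (fun k : ℕ => a (k + 1) - a k) ∘ (fun t : ℝ => ⌊t⌋₊) := rfl
  rw [this]
  exact (measurable_from_top (f := fun k : ℕ => a (k + 1) - a k)).comp Nat.measurable_floor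

theorem dpl_ii (a : ℕ → ℝ) (s t : ℝ) : IntervalIntegrable (dpl a) volume s t := by
  set M := ⌊max s t⌋₊ with hM
  refine (intervalIntegrable_const
    (c := ∑ k ∈ Finset.range (M + 1), |a (k + 1) - a k|)).mono_fun'
    (dpl_meas a).aestronglyMeasurable ?_
  refine (ae_restrict_iff' measurableSet_uIoc).mpr (Eventually.of_forall fun x hx => ?_)
  have hx2 : x ≤ max s t := by
    rw [uIoc, mem_Ioc] at hx; exact hx.2
  have hfl : ⌊x⌋₊ ≤ M := Nat.floor_le_floor hx2
  show ‖dpl a x‖ ≤ ∑ k ∈ Finset.range (M + 1), |a (k + 1) - a k|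
  rw [Real.norm_eq_abs]
  exact Finset.single_le_sum (f := fun k => |a (k + 1) - a k|) (fun k _ => abs_nonneg _)
    (Finset.mem_range.mpr (by omega))

theorem mul_ii (a : ℕ → ℝ) {g : ℝ → ℝ} (hg : Continuous g) (s t : ℝ) :
    IntervalIntegrable (fun x => g x * dpl a x) volume s t :=
  (dpl_ii a s t).continuousOn_mul hg.continuousOn

theorem prim_cont (a : ℕ → ℝ) {g : ℝ → ℝ} (hg : Continuous g) (c : ℝ) :
    Continuous (fun t => ∫ s in c..t, g s * dpl a s) :=
  intervalIntegral.continuous_primitive (fun x y => mul_ii a hg x y) c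

theorem prim_deriv (a : ℕ → ℝ) {g : ℝ → ℝ} (hg : Continuous g) (c : ℝ) {t : ℝ} (ht : t ∉ Nt) :
    HasDerivAt (fun t => ∫ s in c..t, g s * dpl a s) (g t * dpl a t) t := by
  refine intervalIntegral.integral_hasDerivAt_right (mul_ii a hg c t) ?_
    (hg.continuousAt.mul (dpl_contAt a ht))
  exact ((hg.measurable.mul (dpl_meas a)).stronglyMeasurable).stronglyMeasurableAtFilter

/-- fundamental theorem of calculus off the integers -/
theorem ftc {F F' : ℝ → ℝ} (hc : Continuous F) (hd : ∀ t, t ∉ Nt → HasDerivAt F (F' t) t)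
    {s t : ℝ} (hi : IntervalIntegrable F' volume s t) : ∫ x in s..t, F' x = F t - F s :=
  MeasureTheory.integral_eq_of_hasDerivAt_off_countable F F' Nt_countable hc.continuousOn
    (fun x hx => hd x hx.2) hi

/-- fundamental theorem for the derivative `f x' + g y'` -/
theorem ftc2 (a b : ℕ → ℝ) {F f g : ℝ → ℝ} (hc : Continuous F) (hf : Continuous f)
    (hg : Continuous g)
    (hd : ∀ t, t ∉ Nt → HasDerivAt F (f t * dpl a t + g t * dpl b t) t) (s t : ℝ) :
    (∫ x in s..t, f x * dpl a x) + (∫ x in s..t, g x * dpl b x) = F t - F s := by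
  rw [← intervalIntegral.integral_add (mul_ii a hf s t) (mul_ii b hg s t)]
  exact ftc hc hd ((mul_ii a hf s t).add (mul_ii b hg s t))

/-! ### The functions `mE`, `mL` -/

theorem mE_cont (v : ℝ) : Continuous (mE v) := by
  unfold mE
  exact intervalIntegral.continuous_primitive
    (fun x y => (by fun_prop : Continuous fun s : ℝ => Real.exp (-(v * s))).intervalIntegrable x y) 0

theorem mE_deriv (v x : ℝ) : HasDerivAt (mE v) (Real.exp (-(v * x))) x := by
  have hc : Continuous fun s : ℝ => Real.exp (-(v * s)) := by fun_prop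
  exact intervalIntegral.integral_hasDerivAt_right (hc.intervalIntegrable 0 x)
    (hc.stronglyMeasurable.stronglyMeasurableAtFilter) hc.continuousAt

theorem mL_cont (v : ℝ) : Continuous (mL v) := by
  unfold mL
  exact intervalIntegral.continuous_primitive
    (fun x y => (by fun_prop : Continuous fun s : ℝ => s * Real.exp (-(v * s))).intervalIntegrable
      x y) 0

theorem mL_deriv (v x : ℝ) : HasDerivAt (mL v) (x * Real.exp (-(v * x))) x := by
  have hc : Continuous fun s : ℝ => s * Real.exp (-(v * s)) := by fun_prop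
  exact intervalIntegral.integral_hasDerivAt_right (hc.intervalIntegrable 0 x)
    (hc.stronglyMeasurable.stronglyMeasurableAtFilter) hc.continuousAt

@[simp] theorem mE_zero (v : ℝ) : mE v 0 = 0 := by simp [mE]
@[simp] theorem mL_zero (v : ℝ) : mL v 0 = 0 := by simp [mL]

/-- `v mE v x = 1 - e^(-v x)` -/
theorem mul_mE (v x : ℝ) : v * mE v x = 1 - Real.exp (-(v * x)) := by
  have hd : ∀ y, HasDerivAt (fun y => v * mE v y + Real.exp (-(v * y))) 0 y := by
    intro y
    have h1 := (mE_deriv v y).const_mul v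
    have h2 : HasDerivAt (fun y : ℝ => Real.exp (-(v * y))) (Real.exp (-(v * y)) * (-(v * 1))) y := by
      have := ((hasDerivAt_id y).const_mul v).neg
      exact this.exp
    exact (h1.add h2).congr_deriv (by ring)
  have hconst := is_const_of_deriv_eq_zero (fun y => (hd y).differentiableAt)
    (fun y => (hd y).deriv) x 0
  simp at hconst
  linarith

/-- `w mL w y = mE w y - y e^(-w y)` -/
theorem mul_mL (w y : ℝ) : w * mL w y = mE w y - y * Real.exp (-(w * y)) := by
  have hd : ∀ y, HasDerivAt (fun y => w * mL w y - mE w y + y * Real.exp (-(w * y))) 0 y := by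
    intro y
    have h1 := (mL_deriv w y).const_mul w
    have h2 := mE_deriv w y
    have h3 : HasDerivAt (fun y : ℝ => Real.exp (-(w * y))) (Real.exp (-(w * y)) * (-(w * 1))) y := by
      have := ((hasDerivAt_id y).const_mul w).neg
      exact this.exp
    have h4 := (hasDerivAt_id y).mul h3
    exact ((h1.sub h2).add h4).congr_deriv (by simp only [id]; ring)
  have hconst := is_const_of_deriv_eq_zero (fun y => (hd y).differentiableAt)
    (fun y => (hd y).deriv) y 0
  simp at hconst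
  linarith

/-- `e^(-w y) mE (-w) y = mE w y` -/
theorem exp_mE_neg (w y : ℝ) : Real.exp (-(w * y)) * mE (-w) y = mE w y := by
  have hd : ∀ y, HasDerivAt (fun y => mE (-w) y - Real.exp (w * y) * mE w y) 0 y := by
    intro y
    have h1 := mE_deriv (-w) y
    have h2 := mE_deriv w y
    have h3 : HasDerivAt (fun y : ℝ => Real.exp (w * y)) (Real.exp (w * y) * (w * 1)) y :=
      ((hasDerivAt_id y).const_mul w).exp
    refine (h1.sub (h3.mul h2)).congr_deriv ?_
    have e1 : Real.exp (-(-w * y)) = Real.exp (w * y) := by congr 1; ring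
    have e2 : Real.exp (w * y) * Real.exp (-(w * y)) = 1 := by
      rw [← Real.exp_add]; simp
    have e3 := mul_mE w y
    rw [e1, e2]
    have e4 : Real.exp (w * y) * (w * 1) * mE w y = Real.exp (w * y) * (w * mE w y) := by ring
    rw [e4, e3, mul_sub, e2]
    ring
  have hconst := is_const_of_deriv_eq_zero (fun y => (hd y).differentiableAt)
    (fun y => (hd y).deriv) y 0
  simp at hconst
  have e : mE (-w) y = Real.exp (w * y) * mE w y := by linarith
  rw [e, ← mul_assoc, ← Real.exp_add]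
  simp

/-! ### The path functions -/

section path
variable (v w : ℝ) (a b : ℕ → ℝ)

theorem pe_pos (t : ℝ) : 0 < pe v w a b t := Real.exp_pos _

theorem pe_ne (t : ℝ) : pe v w a b t ≠ 0 := (pe_pos v w a b t).ne'

theorem pe_cont : Continuous (pe v w a b) := by
  have h1 := cont_pl a
  have h2 := cont_pl b
  unfold pe
  fun_prop

theorem pe_deriv {t : ℝ} (ht : t ∉ Nt) :
    HasDerivAt (pe v w a b) (-(pe v w a b t * (v * dpl a t + w * dpl b t))) t := by
  have h1 := ((deriv_pl a ht).const_mul v).neg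
  have h2 := (deriv_pl b ht).const_mul w
  refine HasDerivAt.congr_deriv (f := pe v w a b) (h1.sub h2).exp ?_
  show Real.exp (-(v * pl a t) - w * pl b t) * _ = _
  unfold pe
  ring

theorem pq_cont : Continuous (pq v w a b) := by
  have h1 := cont_pl a
  have h2 := cont_pl b
  have h3 := mE_cont w
  unfold pq
  fun_prop

/-- `e + w q = e^(-v x)` -/
theorem pe_add (t : ℝ) : pe v w a b t + w * pq v w a b t = Real.exp (-(v * pl a t)) := by
  have h := mul_mE w (pl b t)
  have e1 : pe v w a b t = Real.exp (-(v * pl a t)) * Real.exp (-(w * pl b t)) := by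
    unfold pe; rw [← Real.exp_add]; congr 1
  rw [e1]
  unfold pq
  have : w * (Real.exp (-(v * pl a t)) * mE w (pl b t)) =
      Real.exp (-(v * pl a t)) * (w * mE w (pl b t)) := by ring
  rw [this, h]; ring

theorem pe_eq (t : ℝ) :
    pe v w a b t = Real.exp (-(v * pl a t)) * Real.exp (-(w * pl b t)) := by
  unfold pe; rw [← Real.exp_add]; congr 1

/-- `q' = -v q x' + e y'` -/
theorem pq_deriv {t : ℝ} (ht : t ∉ Nt) :
    HasDerivAt (pq v w a b) (-(v * pq v w a b t) * dpl a t + pe v w a b t * dpl b t) t := by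
  have h1 := ((deriv_pl a ht).const_mul v).neg.exp
  have h2 := (mE_deriv w (pl b t)).comp t (deriv_pl b ht)
  refine HasDerivAt.congr_deriv (f := pq v w a b) (h1.mul h2) ?_
  rw [pe_eq]
  show Real.exp (-(v * pl a t)) * _ * mE w (pl b t) + Real.exp (-(v * pl a t)) * _ = _
  unfold pq
  ring

theorem pX_cont : Continuous (pX v w a b) := prim_cont a (pe_cont v w a b) 0

theorem pX_deriv {t : ℝ} (ht : t ∉ Nt) :
    HasDerivAt (pX v w a b) (pe v w a b t * dpl a t) t := prim_deriv a (pe_cont v w a b) 0 ht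

theorem pL_cont : Continuous (pL v w a b) := prim_cont a (pq_cont v w a b) 0

theorem pL_deriv {t : ℝ} (ht : t ∉ Nt) :
    HasDerivAt (pL v w a b) (pq v w a b t * dpl a t) t := prim_deriv a (pq_cont v w a b) 0 ht

theorem pu_cont (C : ℝ) : Continuous (pu v w a b C) := by
  unfold pu
  exact (continuous_const.sub (pX_cont v w a b)).div (pe_cont v w a b) (pe_ne v w a b)

/-- `u' = -x' + u (v x' + w y')` -/
theorem pu_deriv (C : ℝ) {t : ℝ} (ht : t ∉ Nt) :
    HasDerivAt (pu v w a b C)
      ((-1 + v * pu v w a b C t) * dpl a t + (w * pu v w a b C t) * dpl b t) t := by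
  have h1 := ((pX_deriv v w a b ht).const_sub C).div (pe_deriv v w a b ht) (pe_ne v w a b t)
  refine HasDerivAt.congr_deriv (f := pu v w a b C) h1 ?_
  unfold pu
  have := pe_ne v w a b t
  field_simp
  ring

theorem pVx_cont (C κ : ℝ) : Continuous (pVx v w a b C κ) :=
  continuous_const.add (prim_cont a (pu_cont v w a b C) 0)

theorem pVx_deriv (C κ : ℝ) {t : ℝ} (ht : t ∉ Nt) :
    HasDerivAt (pVx v w a b C κ) (pu v w a b C t * dpl a t) t :=
  (prim_deriv a (pu_cont v w a b C) 0 ht).const_add _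

theorem pVy_cont (m : ℕ) (C η : ℝ) : Continuous (pVy v w a b m C η) :=
  continuous_const.add (prim_cont b (pu_cont v w a b C) m)

theorem pVy_deriv (m : ℕ) (C η : ℝ) {t : ℝ} (ht : t ∉ Nt) :
    HasDerivAt (pVy v w a b m C η) (pu v w a b C t * dpl b t) t :=
  (prim_deriv b (pu_cont v w a b C) m ht).const_add _

/-- `mE v x / e` -/
noncomputable def pG (t : ℝ) : ℝ := mE v (pl a t) / pe v w a b t

theorem pG_cont : Continuous (pG v w a b) :=
  ((mE_cont v).comp (cont_pl a)).div (pe_cont v w a b) (pe_ne v w a b)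

/-- `(mE v x)' = e^(-v x) x'` -/
theorem mEx_deriv {t : ℝ} (ht : t ∉ Nt) :
    HasDerivAt (fun t => mE v (pl a t)) (Real.exp (-(v * pl a t)) * dpl a t) t :=
  (mE_deriv v (pl a t)).comp t (deriv_pl a ht)

/-- `G' = x' / e + w G y'` -/
theorem pG_deriv {t : ℝ} (ht : t ∉ Nt) :
    HasDerivAt (pG v w a b)
      ((pe v w a b t)⁻¹ * dpl a t + (w * pG v w a b t) * dpl b t) t := by
  have h1 := (mEx_deriv v a ht).div (pe_deriv v w a b ht) (pe_ne v w a b t)
  refine HasDerivAt.congr_deriv (f := pG v w a b) h1 ?_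
  have h2 := mul_mE v (pl a t)
  have h3 : Real.exp (-(v * pl a t)) = 1 - v * mE v (pl a t) := by linarith
  rw [h3]
  unfold pG
  have := pe_ne v w a b t
  field_simp
  ring

end path

end Pool.LBM.Path
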